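import Pool.Agent.H416.LG.TRG
import Pool.Agent.H416.WR.Props
import Pool.Agent.H416.KP

set_option autoImplicit false

/-!
# `K₀(A[G])` for groups with linear centralisers: traces and Chern characters

Let `K₀(A) → K₀(A[G])` be surjective, for a torsion-free group `G` and a regular ring `A`. Then the
Hattori-Stallings trace of every idempotent matrix `e` over `A[G]` is the trace of its augmentation
over `A`; and if `A` is a field of characteristic zero, then all cycles of positive dimension over
`A[G]` in the sense of Connes vanish on `e`. We prove both for the groups in which all elements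
`g ≠ 1` are `Good`, the first for all rings `A`, commutative or not, regular or not, such that
`A / [A, A]` has no torsion; and for arbitrary rings and groups we prove that the trace at a `Good`
element is a torsion element. Over the commutative domains of characteristic zero the idempotent
conjecture follows.

`Good G g`: `g` has infinite order and each finitely generated subgroup `H` of `G` containing `g` has
one of the properties

* `LinC`: the centraliser of `g` in `H` has a representation of finite degree over some field, of any
  characteristic, in which `g` has infinite order;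
* `CohC`: the centraliser of `g` in `H` has a homomorphism `f` to a group `C'` (for example to itself) such
  that `f g` is central of infinite order and `H^(2 j + 2)(C' / ⟨f g⟩; ℚ) = 0` for some `j ≥ 0`; for example
  this is so if `C' / ⟨f g⟩` has finite cohomological dimension over `ℚ`.

By (5) the theorem holds for the torsion-free groups in the class `LinCls` of the groups such that in all
finitely generated subgroups the elements of infinite order have `LinC`. It contains all linear
groups over fields of any characteristic, the groups `Out(F_n)` and `Aut(F_n)`, the groups of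
automorphisms of finitely generated residually torsion-free nilpotent groups, and the groups of germs of
diffeomorphisms and of automorphisms of varieties fixing a point; and it is closed under subgroups,
overgroups of finite index, finite direct products, wreath products with finite groups, directed
unions, and extensions by finitely generated residually torsion-free nilpotent groups with trivial
centre, for example by free groups of finite rank `≥ 2` and fundamental groups of closed orientable
surfaces of genus `≥ 2`. The
Farrell-Jones conjecture is open for linear groups and, to our knowledge, for the groups `Out(F_n)`.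

Idea of the proof. One evaluates functions of closed polygons in `G` on `e ⊗ ⋯ ⊗ e`, with values in
`A / [A, A]`. The Euler class of the centraliser as an
extension by `g` is represented by the coboundary of a skew function `b` with `b(u, g v) = b(u, v) + 2`. The
evaluation of the Pfaffian of `b`, bordered by `1`, is a nonzero multiple of the trace at `g`, by a sign
reversing involution which uses rotations of polygons. For `LinC` the function `b` is
`tr (N (R_u R_v - R_v R_u))` for operators on a space of finite dimension (`N` the nilpotent part of
`g`), so its large Pfaffians are zero; in the case `CohC` the bordered Pfaffian is a coboundary.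
Higher dimensional cycles are reduced to traces by Fedosov's product; the component at `1` of their
values is treated by calculations modulo large primes (starting results).
-/

namespace Pool.Agent.Results.MP_1a2884_al.CentralizerTraces

open Pool.Agent.V11187.DG (Cyc onI value suppE)
open Pool.Agent.H416.LG (Good OnLinear)
open Pool.Agent.H416.WR (LinCls Closed Members)
open Pool.Agent.Y75.DT (HH cl hs aug)
open Pool.Agent.Y75.BF (InfOrd)
open Pool.Agent.V11187.DT (TrP)

universe u v w x y z

/-- The values of the cycle on the tuples of elements of `H` with product `1` lie in the module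
generated by a finite set over a finitely generated subring of `K`. -/
def FinType {K : Type u} [Field K] {G : Type w} [Group G] {Ω : Type v} [Ring Ω] [Algebra K Ω]
    {M : Type x} [AddCommGroup M] [Module K M] (δ : Ω →ₗ[K] Ω) (T : Ω →ₗ[K] M) (N : ℕ)
    (ρ : MonoidAlgebra K G →ₐ[K] Ω) (H : Subgroup G) : Prop :=
  ∃ (s : Finset K) (F : Finset M), ∀ (a : H) (l : List H),
    l.length = N → a * l.prod = 1 → value δ T ρ a (l.map Subtype.val) ∈
      Submodule.span (Algebra.adjoin ℤ (s : Set K)) (F : Set M)

/-- All cycles of dimension `2 n ≥ 2` with the property `FinType` vanish on `e`. -/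
def Vanish (K : Type u) [Field K] {G : Type w} [Group G] {d : ℕ}
    (e : Matrix (Fin d) (Fin d) (MonoidAlgebra K G)) : Prop :=
  ∀ (Ω : Type v) [Ring Ω] [Algebra K Ω] (𝒜 : ℕ → Submodule K Ω) [GradedAlgebra 𝒜]
    (M : Type x) [AddCommGroup M] [Module K M] (δ : Ω →ₗ[K] Ω) (T : Ω →ₗ[K] M) (n : ℕ), 1 ≤ n →
    Cyc (2 * n) 𝒜 δ T → ∀ ρ : MonoidAlgebra K G →ₐ[K] Ω, (∀ a, ρ a ∈ 𝒜 0) →
    FinType δ T (2 * n) ρ (suppE e) → onI δ T (ρ : MonoidAlgebra K G →+* Ω) n e = 0

/-- The Hattori-Stallings traces at `g` of the idempotent matrices over `A[G]` are torsion elements. -/
def TorsionAt (A : Type u) [Ring A] (G : Type w) [Group G] (g : G) : Prop :=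
  ∀ (k : ℕ) (e : Matrix (Fin k) (Fin k) (MonoidAlgebra A G)), e * e = e →
    ∃ n : ℕ, 0 < n ∧ n • hs e g = 0

/-- The Hattori-Stallings traces of the idempotent matrices over `A[G]` are zero at `g ≠ 1` and at `1`
the traces of their augmentations. -/
def AugTraces (A : Type u) [Ring A] (G : Type w) [Group G] : Prop :=
  ∀ (k : ℕ) (e : Matrix (Fin k) (Fin k) (MonoidAlgebra A G)), e * e = e →
    (∀ g, g ≠ 1 → hs e g = 0) ∧ hs e 1 = ∑ i, cl A (aug (e i i))

/-- An idempotent matrix over `A[G]` with augmentation `0` is `0`, and `0`, `1` are the only idempotents of
`A[G]`. -/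
def OnlyTrivial (A : Type u) [CommRing A] (G : Type w) [Group G] : Prop :=
  (∀ (k : ℕ) (e : Matrix (Fin k) (Fin k) (MonoidAlgebra A G)), e * e = e →
    (∀ i j, aug (e i j) = 0) → e = 0) ∧
  ∀ e : MonoidAlgebra A G, e * e = e → e = 0 ∨ e = 1

/-- (1) The Hattori-Stallings traces of all idempotent matrices over all group rings `A[G]` at the
`Good` elements are torsion elements of `A / [A, A]`.
(2) If all elements `g ≠ 1` of `G` are `Good` and `A / [A, A]` has no torsion, then every
idempotent matrix over `A[G]` has the same Hattori-Stallings trace as its augmentation over `A`.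
(3) If all elements `g ≠ 1` of `G` are `Good` and `K` is a field of characteristic zero, then the
cycles of positive even dimension vanish on the idempotent matrices over `K[G]`.
(4) If all elements `g ≠ 1` of `G` are `Good` and `A` is a commutative domain of characteristic zero,
then an idempotent matrix over `A[G]` with augmentation `0` is `0`, and `0` and `1` are the only
idempotents of `A[G]`.
(5) An element `g` of `G` is `Good` if each finitely generated subgroup containing `g` is mapped to some
`GL_n(F)`, `F` a field, with image of `g` of infinite order, or if the image of `g` under a homomorphism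
to a group in the class `LinCls` has infinite order. The class `LinCls` has the closure properties
`Closed` and contains the groups `Members`. -/
theorem result :
    (∀ (A : Type u) [Ring A] (G : Type w) [Group G] (g : G), Good.{w, z} G g → TorsionAt A G g) ∧
    (∀ (A : Type u) [Ring A] (G : Type w) [Group G],
      (∀ (n : ℕ) (x : HH A), 0 < n → n • x = 0 → x = 0) → (∀ g : G, g ≠ 1 → Good.{w, z} G g) →
      AugTraces A G) ∧
    (∀ (G : Type w) [Group G], (∀ g : G, g ≠ 1 → Good.{w, z} G g) →
      ∀ (K : Type u) [Field K] [CharZero K] (d : ℕ)
        (e : Matrix (Fin d) (Fin d) (MonoidAlgebra K G)), e * e = e →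
        Vanish.{u, v, w, x} K e) ∧
    (∀ (A : Type u) [CommRing A] [IsDomain A] [CharZero A] (G : Type w) [Group G],
      (∀ g : G, g ≠ 1 → Good.{w, z} G g) → OnlyTrivial A G) ∧
    (∀ (G : Type w) [Group G] (g : G), OnLinear.{w, z} G g → Good.{w, z} G g) ∧
    (∀ (G G' : Type w) [Group G] [Group G'] (f : G →* G') (g : G), LinCls.{w, w} G' →
      ¬ IsOfFinOrder (f g) → Good.{w, w} G g) ∧ Closed.{w} ∧ Members.{w} := by
  refine ⟨?_, ?_, ?_, ?_, fun G _ g hg => Good.of_linear hg,
    fun G G' _ _ f g h hg => Pool.Agent.H416.WR.good_of_hom f g h hg,
    Pool.Agent.H416.WR.closed, Pool.Agent.H416.WR.members⟩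
  · intro A _ G _ g hg k e he
    exact Pool.Agent.H416.LG.TRG.nsmul_van hg.van e he
  · intro A _ G _ hA hG k e he
    refine Pool.Agent.V11187.DT.hs_torsionFree (fun g hg n hn => (hG g hg).ne_one n hn) hA ?_ k e he
    refine Pool.Agent.H416.LG.TRG.trP fun g hg => hG g ?_
    rintro rfl
    exact hg 1 one_pos (one_pow 1)
  · intro G _ hG K _ _ d e he Ω _ _ 𝒜 _ M _ _ δ T n hn hc ρ hρ hF
    obtain ⟨s, F, hF⟩ := hF
    exact Pool.Agent.H416.LG.GE.onI_zero hG e he 𝒜 δ T n hn hc ρ hρ s F hF
  · intro A _ _ _ G _ hG
    have h1 : ∀ g : G, g ≠ 1 → InfOrd g := fun g hg n hn => (hG g hg).ne_one n hn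
    have h2 : TrP A G := by
      refine Pool.Agent.H416.LG.TRG.trP fun g hg => hG g ?_
      rintro rfl
      exact hg 1 one_pos (one_pow 1)
    exact ⟨fun k e he h0 => Pool.Agent.H416.TR.zero_of_aug h1 h2 e he h0,
      fun e he => Pool.Agent.H416.TR.idem_trivial h1 h2 e he⟩

end Pool.Agent.Results.MP_1a2884_al.CentralizerTraces
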