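import Pool.Agent.H416.Cls
import Pool.Agent.H416.KP

set_option autoImplicit false

/-!
# Traces of projective modules over `A[G]`, `G` a group of homeomorphisms of the circle

`OnCircle G g`: every finitely generated subgroup `H` of `G` that contains `g` acts by homeomorphisms
on the circle such that the fixed point set of every element has only finitely many boundary points,
and `g` acts by a homeomorphism of infinite order. It holds for instance for all elements of infinite
order of the groups of real analytic, piecewise analytic, piecewise linear or piecewise projective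
homeomorphisms of the circle. No derivatives, orientations or fixed points are assumed.

Let `K₀(A) → K₀(A[G])` be surjective, for a torsion-free group `G`. Then the Hattori-Stallings trace
of every idempotent matrix over `A[G]` is the trace of the augmentation, and if `A` is a domain of
characteristic zero, then the idempotent matrices with augmentation zero are zero and `0`, `1` are the
only idempotents of `A[G]`. We prove these consequences for the groups in which all elements `≠ 1`
satisfy `OnCircle`, the first for all rings `A` for which `A / [A, A]` has no torsion; and we prove a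
version for groups with torsion and extensions.

We prove that such an element `g` has infinite order in the abelianisation of its centraliser in the
finitely generated subgroups (rotation numbers, the order of the germs at the end of an interval on
which a power of `g` has no fixed points, Hoelder's theorem, transfer). The trace at such an element
is a torsion element of `A / [A, A]`.
-/

namespace Pool.Agent.Results.MP_1a2884_al.CircleGroups

open Pool.Agent.H416 (OnCircle)
open Pool.Agent.Y75.DT (HH cl hs aug)
open Pool.Agent.Y75.BF (InfOrd)
open Pool.Agent.V11187.DT (TrP)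

universe u w

/-- (1) Let `A` be a ring, `K` a normal subgroup of `H` with `TrP A (H / K)`: the traces at the
elements of infinite order of the idempotent matrices are torsion elements of `A / [A, A]`. Suppose
that for all `h` in `H` of infinite order and all `k` in `K` the elements `h` and `h k` are conjugate
in `H`, or one of them satisfies `OnCircle`. Then `TrP A H`. In particular `TrP A H` holds if all
elements of infinite order of `H` satisfy `OnCircle`.

(2) If all elements `h ≠ 1` of `H` satisfy `OnCircle` and `A / [A, A]` has no torsion, then every
idempotent matrix over `A[H]` has the same Hattori-Stallings trace as its augmentation over `A`.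

(3) If all elements `h ≠ 1` of `H` satisfy `OnCircle` and `A` is a commutative domain of
characteristic zero, then the idempotent matrices over `A[H]` with augmentation zero are zero, and
`0` and `1` are the only idempotents of `A[H]`. -/
theorem result :
    (∀ (A : Type u) [Ring A] (H : Type w) [Group H],
      (∀ (K : Subgroup H) [K.Normal],
        (∀ h k : H, k ∈ K → InfOrd h → IsConj h (h * k) ∨ OnCircle H h ∨ OnCircle H (h * k)) →
        TrP A (H ⧸ K) → TrP A H) ∧
      ((∀ h : H, InfOrd h → OnCircle H h) → TrP A H)) ∧
    (∀ (A : Type u) [Ring A] (H : Type w) [Group H],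
      (∀ (n : ℕ) (x : HH A), 0 < n → n • x = 0 → x = 0) → (∀ h : H, h ≠ 1 → OnCircle H h) →
      ∀ (k : ℕ) (e : Matrix (Fin k) (Fin k) (MonoidAlgebra A H)), e * e = e →
        (∀ h, h ≠ 1 → hs e h = 0) ∧ hs e 1 = ∑ i, cl A (aug (e i i))) ∧
    (∀ (A : Type u) [CommRing A] [IsDomain A] [CharZero A] (H : Type w) [Group H],
      (∀ h : H, h ≠ 1 → OnCircle H h) →
      (∀ (k : ℕ) (e : Matrix (Fin k) (Fin k) (MonoidAlgebra A H)), e * e = e →
        (∀ i j, aug (e i j) = 0) → e = 0) ∧
      ∀ e : MonoidAlgebra A H, e * e = e → e = 0 ∨ e = 1) := by
  have hinf : ∀ (H : Type w) [Group H] (h : H), OnCircle H h → InfOrd h := by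
    intro H _ h hh n hn h1
    have h2 := Pool.Agent.H416.Cls.loc_circle hh (Subgroup.zpowers h)
      ⟨{h}, by rw [Finset.coe_singleton, Subgroup.zpowers_eq_closure]⟩ (Subgroup.mem_zpowers h)
    exact h2.pow_ne n hn (Subtype.ext h1)
  refine ⟨?_, ?_, ?_⟩
  · intro A _ H _
    refine ⟨?_, ?_⟩
    · intro K _ hK hQ
      apply Pool.Agent.H416.TR.trP_ext K _ hQ
      intro h k hk hh
      rcases hK h k hk hh with h3 | h3 | h3
      · exact Or.inl h3
      · exact Or.inr (Or.inl (Pool.Agent.H416.Cls.loc_circle h3))
      · exact Or.inr (Or.inr (Pool.Agent.H416.Cls.loc_circle h3))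
    · intro hH
      exact Pool.Agent.H416.TR.trP fun h hh => Pool.Agent.H416.Cls.loc_circle (hH h hh)
  · intro A _ H _ hA hH k e he
    refine Pool.Agent.V11187.DT.hs_torsionFree (fun h hh => hinf H h (hH h hh)) hA ?_ k e he
    refine Pool.Agent.H416.TR.trP fun h hh => Pool.Agent.H416.Cls.loc_circle (hH h ?_)
    rintro rfl
    exact hh 1 one_pos (one_pow 1)
  · intro A _ _ _ H _ hH
    have h1 : ∀ h : H, h ≠ 1 → InfOrd h := fun h hh => hinf H h (hH h hh)
    have h2 : TrP A H := by
      refine Pool.Agent.H416.TR.trP fun h hh => Pool.Agent.H416.Cls.loc_circle (hH h ?_)
      rintro rfl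
      exact hh 1 one_pos (one_pow 1)
    exact ⟨fun k e he h0 => Pool.Agent.H416.TR.zero_of_aug h1 h2 e he h0,
      fun e he => Pool.Agent.H416.TR.idem_trivial h1 h2 e he⟩

end Pool.Agent.Results.MP_1a2884_al.CircleGroups
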