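import Pool.Agent.H416.Cls
import Pool.Agent.H416.TR

set_option autoImplicit false

/-!
# Traces of projective modules over `A[G]`, `G` a group of isometries of spaces of negative type

`OnNegType G g`: every finitely generated subgroup `H` of `G` that contains `g` acts by isometries on a
metric space `X` of negative type (`∑ c_i c_j d(x_i, x_j) ≤ 0` if `∑ c_i = 0`) such that `g` has
positive translation length: `d(x, g ^ n x) ≥ c n` for some `c > 0`. The spaces `L^p`, `1 ≤ p ≤ 2`,
the real trees, the median spaces and the real and complex hyperbolic spaces, also of infinite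
dimension, are of negative type. `OnWalls G g` is the version for spaces with walls (for example
CAT(0) cube complexes of arbitrary dimension): the number of walls which separate `x` and `g ^ n x` is
unbounded; it implies `OnNegType G g`. The actions need not be proper, and nothing is assumed about
the stabilizers.

Let `K₀(A) → K₀(A[G])` be surjective, for a torsion-free group `G`. Then the Hattori-Stallings trace
of every idempotent matrix over `A[G]` is the trace of the augmentation. We prove this for the groups
in which all elements `≠ 1` satisfy `OnNegType` and for all rings `A`, commutative or not, for which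
`A / [A, A]` has no torsion; and we prove a version for groups with torsion and extensions.

The element `g` has infinite order in the abelianisation of its centraliser, in the finitely
generated subgroups: the metric is the square of the distance in a Hilbert space, and the means of
`d(g ^ (-n) x, c x) - d(g ^ n x, c x)` over `n` are asymptotically additive in `c`, `c` in the
centraliser, by the ergodic theorem for stationary sequences of vectors. The trace at such an element is a torsion
element of `A / [A, A]`.
-/

namespace Pool.Agent.Results.MP_1a2884_al.NegativeTypeTraces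

open Pool.Agent.H416 (OnNegType OnWalls)
open Pool.Agent.Y75.DT (HH cl hs aug)
open Pool.Agent.Y75.BF (InfOrd)
open Pool.Agent.V11187.DT (TrP)

universe u w z

/-- (1) Let `A` be a ring, `K` a normal subgroup of `H` with `TrP A (H / K)`: the traces at the
elements of infinite order of the idempotent matrices are torsion elements of `A / [A, A]`. Suppose
that for all `h` in `H` of infinite order and all `k` in `K` the elements `h` and `h k` are conjugate
in `H`, or one of them satisfies `OnNegType`. Then `TrP A H`. In particular `TrP A H` holds if all
elements of infinite order of `H` satisfy `OnNegType`.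

(2) If all elements `h ≠ 1` of `H` satisfy `OnNegType` and `A / [A, A]` has no torsion, then every
idempotent matrix over `A[H]` has the same Hattori-Stallings trace as its augmentation over `A`.

(3) `OnWalls` implies `OnNegType`. -/
theorem result :
    (∀ (A : Type u) [Ring A] (H : Type w) [Group H],
      (∀ (K : Subgroup H) [K.Normal],
        (∀ h k : H, k ∈ K → InfOrd h → IsConj h (h * k) ∨ OnNegType.{w, z} H h ∨ OnNegType.{w, z} H (h * k)) →
        TrP A (H ⧸ K) → TrP A H) ∧
      ((∀ h : H, InfOrd h → OnNegType.{w, z} H h) → TrP A H)) ∧
    (∀ (A : Type u) [Ring A] (H : Type w) [Group H],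
      (∀ (n : ℕ) (x : HH A), 0 < n → n • x = 0 → x = 0) → (∀ h : H, h ≠ 1 → OnNegType.{w, z} H h) →
      ∀ (k : ℕ) (e : Matrix (Fin k) (Fin k) (MonoidAlgebra A H)), e * e = e →
        (∀ h, h ≠ 1 → hs e h = 0) ∧ hs e 1 = ∑ i, cl A (aug (e i i))) ∧
    (∀ (G : Type w) [Group G] (g : G), OnWalls.{w, z} G g → OnNegType.{w, z} G g) := by
  have hinf : ∀ (H : Type w) [Group H] (h : H), OnNegType.{w, z} H h → InfOrd h := by
    intro H _ h hh n hn h1
    have h2 := Pool.Agent.H416.Cls.loc_negType hh (Subgroup.zpowers h)
      ⟨{h}, by rw [Finset.coe_singleton, Subgroup.zpowers_eq_closure]⟩ (Subgroup.mem_zpowers h)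
    exact h2.pow_ne n hn (Subtype.ext h1)
  refine ⟨?_, ?_, fun G _ g hg => Pool.Agent.H416.Cls.negType_of_walls hg⟩
  · intro A _ H _
    refine ⟨?_, ?_⟩
    · intro K _ hK hQ
      apply Pool.Agent.H416.TR.trP_ext K _ hQ
      intro h k hk hh
      rcases hK h k hk hh with h3 | h3 | h3
      · exact Or.inl h3
      · exact Or.inr (Or.inl (Pool.Agent.H416.Cls.loc_negType h3))
      · exact Or.inr (Or.inr (Pool.Agent.H416.Cls.loc_negType h3))
    · intro hH
      exact Pool.Agent.H416.TR.trP fun h hh => Pool.Agent.H416.Cls.loc_negType (hH h hh)
  · intro A _ H _ hA hH k e he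
    refine Pool.Agent.V11187.DT.hs_torsionFree (fun h hh => hinf H h (hH h hh)) hA ?_ k e he
    refine Pool.Agent.H416.TR.trP fun h hh => Pool.Agent.H416.Cls.loc_negType (hH h ?_)
    rintro rfl
    exact hh 1 one_pos (one_pow 1)

end Pool.Agent.Results.MP_1a2884_al.NegativeTypeTraces
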